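import Pool.Agent.RS.StmtsT

set_option autoImplicit false

namespace Pool.Agent.RS.H52

open Pool.Agent.RS

theorem ntm : NtmStmt := by
  classical
  intro B K _ _ _ _ P q r l s a u hl hu
  refine ⟨fun _ => s, fun i => if i = l then a else 0, fun i => if i = l then u else 1, ?_, ?_⟩
  · intro i _
    by_cases hi : i = l
    · subst hi
      simpa using hu
    · simp only [if_neg hi]
      refine ⟨Subring.one_mem _, 0, Subring.zero_mem _, 1, Subring.one_mem _, ?_, ?_⟩
      · rw [zero_mul, one_mul, zero_add]
        exact Subring.one_mem _
      · rw [zero_mul, one_mul, zero_add]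
        exact one_ne_zero
  · rw [Finset.sum_eq_single l]
    · simp
    · intro i _ hi
      simp [if_neg hi]
    · intro h
      exact absurd (Finset.mem_range.mpr hl) h

end Pool.Agent.RS.H52
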