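import Pool.Agent.RS.StmtsF

set_option autoImplicit false

namespace Pool.Agent.RS.H52

open Pool.Agent.RS
open MvPolynomial

theorem stc (hLmk : LmkStmt) (hLmb : LmbStmt) (hLsb : LsbStmt) (hGoo : GooStmt) (hPjb : PjbStmt) :
    StcStmt := by
  intro E _ i j q e ρ α β c Lf hji hq hjq he he0 hα hβ hρ hρ0 hρP he1 R1 R2 R3
  obtain ⟨P1, -, P3, -, -, -, -, -⟩ := hPjb E
  set J : Finset ℕ := (Finset.range i).image j with hJ
  have hPi : Pj E j i = PJ E J := rfl
  have hPi1 : Pj E j (i + 1) = PJ E (insert (j i) J) := by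
    unfold Pj
    rw [Finset.range_add_one, Finset.image_insert]
  have hsub : Pj E j (i + 1) ≤ Pj E j i := by
    rw [hPi1, hPi]
    exact P3 _ _ (Finset.subset_insert _ _)
  have hjJ : j i ∉ J := by
    intro h
    rw [hJ, Finset.mem_image] at h
    obtain ⟨l, hl, hl'⟩ := h
    exact hji l (Finset.mem_range.mp hl) hl'.symm
  have hfree : ∀ κ ∈ Pj E j (i + 1), j i ∉ κ.vars := by
    intro κ hκ h
    rw [hPi1, P1] at hκ
    exact hκ _ h (Finset.mem_insert_self _ _)
  refine ⟨?_, ?_, ?_⟩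
  · intro w κ hκ hκ0
    rw [R1 w κ (hsub hκ) hκ0]
    exact (hLmk E (j i) (q i) κ c (Lf w) (hfree κ hκ)).2 hκ0
  · intro f s
    obtain ⟨f', s', hf', hLf'⟩ := R2 f s
    have hqs : q i ^ s ∈ Pj E j i := Subring.pow_mem _ (hq i le_rfl).1 s
    have hqs0 : q i ^ s ≠ 0 := pow_ne_zero _ (hq i le_rfl).2
    have h1 : io E f / io E (∏ m ∈ Finset.range (i + 1), q m) ^ s =
        (io E f / io E (∏ m ∈ Finset.range i, q m) ^ s) / io E (q i ^ s) := by
      rw [Finset.prod_range_succ, map_mul, mul_pow, map_pow, div_div]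
    have h2 : Lf (io E f / io E (∏ m ∈ Finset.range (i + 1), q m) ^ s) =
        io E f' / (io E (e i) ^ s' * io E (q i) ^ s) := by
      rw [h1, R1 _ _ hqs hqs0, hLf', div_div, map_pow]
    obtain ⟨f'', M, hf'', hl⟩ := hLsb E J (j i) c (q i) (e i) ρ α β hjJ hjq (hq i le_rfl).1 he he0
      hα hβ hρ hρ0 (by rw [← hPi1]; exact hρP) f' s s' hf'
    refine ⟨f'', M, by rw [hPi1]; exact hf'', ?_⟩
    rw [h2, hl, he1]
  · intro l hl f u s hu
    rcases Nat.lt_succ_iff_lt_or_eq.mp hl with hl | rfl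
    · rw [R3 l hl f u s hu, map_zero]
    · by_cases hu0 : u = 0
      · rw [hu0, mul_zero, map_zero, div_zero, map_zero, map_zero]
      · obtain ⟨f', s', hf', hLf'⟩ := R2 f s
        have h1 : io E f / io E ((∏ m ∈ Finset.range l, q m) ^ s * u) =
            (io E f / io E (∏ m ∈ Finset.range l, q m) ^ s) / io E u := by
          rw [map_mul, map_pow, div_div]
        have h2 : Lf (io E f / io E ((∏ m ∈ Finset.range l, q m) ^ s * u)) =
            io E f' / io E (e l ^ s' * u) := by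
          rw [h1, R1 _ _ hu.1 hu0, hLf', div_div, map_mul, map_pow]
        obtain ⟨G1, G2⟩ := hGoo (MvPolynomial ℕ E) (Pj E j l) (Pj E j (l + 1)) (q l) hsub
          (hq l le_rfl).1
        have hge : Good (Pj E j l) (Pj E j (l + 1)) (q l) (e l) :=
          ⟨he, α, hα, β, hβ, by rw [← hρ]; exact hρP, by rw [← hρ]; exact hρ0⟩
        have hges : ∀ n, Good (Pj E j l) (Pj E j (l + 1)) (q l) (e l ^ n) := by
          intro n
          induction n with
          | zero =>
            rw [pow_zero]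
            exact G2 1 (Subring.one_mem _) one_ne_zero
          | succ n ih =>
            rw [pow_succ]
            exact G1 _ _ ih hge
        obtain ⟨-, α', -, β', -, hρ', hρ0'⟩ := G1 _ _ (hges s') hu
        rw [h2]
        exact hLmb E (j l) (q l) f' (e l ^ s' * u) α' β' _ c rfl hρ0' (hfree _ hρ') hjq

end Pool.Agent.RS.H52
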