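import Pool.Agent.RS.StmtsF

set_option autoImplicit false

namespace Pool.Agent.RS.H52

open Pool.Agent.RS
open MvPolynomial

theorem nzd (hCop : CopStmt) (hSmp : SmpStmt) : NzdStmt := by
  intro E _ j q b m B hq hj hnd hbm hB
  intro h0
  have hcop := hCop E j q b hq hj hnd
  obtain ⟨_, h2⟩ := hSmp (MvPolynomial ℕ E) (FF E) (io E) m B (toX j q).natDegree
    (toX j q) (toX j b) 0
  rw [h0, map_zero] at h2
  have hQ : (toX j q).map (io E) = atX j (io E) q := rfl
  have hb : (toX j b).map (io E) = atX j (io E) b := rfl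
  have hQ0 : (toX j q).map (io E) ≠ 0 := by
    rw [hQ]
    exact (map_ne_zero_iff _ (atX_injective j)).mpr hq.ne_zero
  rw [← hQ, ← hb] at hcop
  have hdQ : ((toX j q).map (io E)).natDegree = (toX j q).natDegree :=
    Polynomial.natDegree_map_eq_of_injective io_injective _
  have hdb : ((toX j b).map (io E)).natDegree = (toX j b).natDegree :=
    Polynomial.natDegree_map_eq_of_injective io_injective _
  generalize (toX j q).map (io E) = Q at *
  generalize (toX j b).map (io E) = b' at *
  rw [← hdQ] at h2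
  rw [← hdb] at hbm
  unfold denT at h2
  have hlc : Q.coeff Q.natDegree ≠ 0 := Polynomial.leadingCoeff_ne_zero.mpr hQ0
  have hG : (Q ^ B).natDegree = B * Q.natDegree := Polynomial.natDegree_pow _ _
  have hGc : (Q ^ B).coeff (B * Q.natDegree) ≠ 0 := by
    rw [← hG]
    exact Polynomial.leadingCoeff_ne_zero.mpr (pow_ne_zero _ hQ0)
  have hres := Polynomial.resultant_ne_zero b' (Q ^ B) (hcop.pow_right)
  rw [hG] at hres
  obtain ⟨k, rfl⟩ := Nat.exists_eq_add_of_le hbm
  rw [Polynomial.resultant_add_left_deg _ _ _ _ _ le_rfl] at h2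
  refine mul_ne_zero (mul_ne_zero (mul_ne_zero ?_ ?_) hres) (pow_ne_zero _ hlc) h2
  · exact pow_ne_zero _ (neg_ne_zero.mpr one_ne_zero)
  · exact pow_ne_zero _ hGc

end Pool.Agent.RS.H52
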